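import Mathlib

/-!
# Small hitting sets with small exceptional sets (first moment)
-/

set_option autoImplicit false

namespace Pool.Agent.Helper38.EK

variable {M : Type} [Fintype M] [DecidableEq M]

/-- the number of functions which avoid one value on `D` -/
theorem card_avoid (q : ℕ) (D : Finset M) :
    (Finset.univ.filter (fun h : M → Fin (q + 1) => ∀ z ∈ D, h z ≠ 0)).card =
      q ^ D.card * (q + 1) ^ (Fintype.card M - D.card) := by
  have h1 : (Finset.univ.filter (fun h : M → Fin (q + 1) => ∀ z ∈ D, h z ≠ 0)) =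
      Fintype.piFinset (fun z => if z ∈ D then Finset.univ.erase (0 : Fin (q + 1)) else Finset.univ) := by
    ext h
    simp only [Finset.mem_filter, Finset.mem_univ, true_and, Fintype.mem_piFinset]
    constructor
    · intro hh z
      by_cases hz : z ∈ D
      · rw [if_pos hz]
        exact Finset.mem_erase.2 ⟨hh z hz, Finset.mem_univ _⟩
      · rw [if_neg hz]
        exact Finset.mem_univ _
    · intro hh z hz
      have := hh z
      rw [if_pos hz] at this
      exact (Finset.mem_erase.1 this).1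
  rw [h1, Fintype.card_piFinset]
  have h2 : ∀ z : M, (if z ∈ D then Finset.univ.erase (0 : Fin (q + 1)) else Finset.univ : Finset (Fin (q + 1))).card =
      if z ∈ D then q else q + 1 := by
    intro z
    split_ifs
    · rw [Finset.card_erase_of_mem (Finset.mem_univ _), Finset.card_univ, Fintype.card_fin, Nat.add_sub_cancel]
    · rw [Finset.card_univ, Fintype.card_fin]
  rw [Finset.prod_congr rfl (fun z _ => h2 z), Finset.prod_ite, Finset.prod_const, Finset.prod_const]
  have h3 : (Finset.univ.filter (fun z => z ∈ D)) = D := by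
    ext z; simp
  have h4 : (Finset.univ.filter (fun z => z ∉ D)) = Dᶜ := by
    ext z; simp
  rw [h3, h4, Finset.card_compl]

/-- the values `0` -/
def zer {q : ℕ} (h : M → Fin (q + 1)) : Finset M := Finset.univ.filter (fun z => h z = 0)

theorem sum_zer (q : ℕ) : ∑ h : M → Fin (q + 1), (zer h).card = Fintype.card M * (q + 1) ^ (Fintype.card M - 1) := by
  unfold zer
  simp only [Finset.card_filter]
  rw [Finset.sum_comm]
  have h1 : ∀ z : M, ∑ h : M → Fin (q + 1), (if h z = 0 then 1 else 0) = (q + 1) ^ (Fintype.card M - 1) := by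
    intro z
    rw [← Finset.card_filter]
    have h2 := Finset.card_filter_add_card_filter_not (s := (Finset.univ : Finset (M → Fin (q + 1)))) (fun h => h z = 0)
    have h3 := card_avoid q ({z} : Finset M)
    have h4 : (Finset.univ.filter (fun h : M → Fin (q + 1) => ∀ w ∈ ({z} : Finset M), h w ≠ 0)) =
        Finset.univ.filter (fun h : M → Fin (q + 1) => ¬ h z = 0) := by
      ext h; simp
    rw [h4, Finset.card_singleton, pow_one] at h3
    rw [h3, Finset.card_univ, Fintype.card_fun, Fintype.card_fin] at h2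
    have h5 : 1 ≤ Fintype.card M := Fintype.card_pos_iff.2 ⟨z⟩
    obtain ⟨m, hm⟩ : ∃ m, Fintype.card M = m + 1 := ⟨Fintype.card M - 1, by omega⟩
    rw [hm, Nat.add_sub_cancel] at h2 ⊢
    rw [pow_succ] at h2
    have e : (q + 1) ^ m * (q + 1) = q * (q + 1) ^ m + (q + 1) ^ m := by ring
    omega
  rw [Finset.sum_congr rfl (fun z _ => h1 z), Finset.sum_const, Finset.card_univ, smul_eq_mul]

open Classical in
/-- A small set which, outside itself, hits all the sets of the families. -/
theorem hitting {q B L : ℕ} (hq : 1 ≤ q) (F : M → Finset (Finset M)) (hB : ∀ x, (F x).card ≤ B)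
    (hL : ∀ x, ∀ D ∈ F x, L ≤ D.card) (hnum : B * q * (q - 1) ^ L ≤ q ^ L) :
    ∃ A : Finset M, q * A.card ≤ 2 * Fintype.card M ∧ ∀ x ∉ A, ∀ D ∈ F x, ∃ z ∈ D, z ∈ A := by
  obtain ⟨p, rfl⟩ : ∃ p, q = p + 1 := ⟨q - 1, by omega⟩
  rw [Nat.add_sub_cancel] at hnum
  set n := Fintype.card M with hn
  -- the exceptional points
  let bad : (M → Fin (p + 1)) → Finset M := fun h =>
    Finset.univ.filter (fun x => ∃ D ∈ F x, ∀ z ∈ D, h z ≠ 0)
  have h1 : ∑ h : M → Fin (p + 1), (bad h).card ≤ n * (p + 1) ^ (n - 1) := by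
    have e1 : ∑ h : M → Fin (p + 1), (bad h).card =
        ∑ x : M, (Finset.univ.filter (fun h : M → Fin (p + 1) => ∃ D ∈ F x, ∀ z ∈ D, h z ≠ 0)).card := by
      simp only [bad, Finset.card_filter]
      rw [Finset.sum_comm]
    rw [e1]
    have e2 : ∀ x : M, (Finset.univ.filter (fun h : M → Fin (p + 1) => ∃ D ∈ F x, ∀ z ∈ D, h z ≠ 0)).card ≤
        (p + 1) ^ (n - 1) := by
      intro x
      have hn1 : 1 ≤ n := Fintype.card_pos_iff.2 ⟨x⟩
      have e3 : (Finset.univ.filter (fun h : M → Fin (p + 1) => ∃ D ∈ F x, ∀ z ∈ D, h z ≠ 0)) ⊆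
          (F x).biUnion (fun D => Finset.univ.filter (fun h : M → Fin (p + 1) => ∀ z ∈ D, h z ≠ 0)) := by
        intro h hh
        obtain ⟨D, hD, hD2⟩ := (Finset.mem_filter.1 hh).2
        exact Finset.mem_biUnion.2 ⟨D, hD, Finset.mem_filter.2 ⟨Finset.mem_univ _, hD2⟩⟩
      refine (Finset.card_le_card e3).trans (Finset.card_biUnion_le.trans ?_)
      rcases Finset.eq_empty_or_nonempty (F x) with h0 | ⟨D0, hD0⟩
      · rw [h0]; simp
      have hLn : L ≤ n := (hL x D0 hD0).trans (Finset.card_le_univ _)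
      have e4 : ∀ D ∈ F x, (Finset.univ.filter (fun h : M → Fin (p + 1) => ∀ z ∈ D, h z ≠ 0)).card ≤
          p ^ L * (p + 1) ^ (n - L) := by
        intro D hD
        rw [card_avoid]
        have hDL := hL x D hD
        have hDn : D.card ≤ n := Finset.card_le_univ _
        obtain ⟨a, ha⟩ : ∃ a, D.card = L + a := ⟨D.card - L, by omega⟩
        have e5 : n - L = a + (n - D.card) := by omega
        rw [e5, ha, pow_add, pow_add, ← ha]
        calc p ^ L * p ^ a * (p + 1) ^ (n - D.card) ≤ p ^ L * (p + 1) ^ a * (p + 1) ^ (n - D.card) := by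
              gcongr; omega
          _ = _ := by ring
      refine (Finset.sum_le_sum e4).trans ?_
      rw [Finset.sum_const, smul_eq_mul]
      refine (Nat.mul_le_mul_right _ (hB x)).trans ?_
      have e6 : (B * (p + 1) * p ^ L) * (p + 1) ^ (n - L) ≤ (p + 1) ^ L * (p + 1) ^ (n - L) :=
        Nat.mul_le_mul_right _ hnum
      have e7 : (p + 1) ^ L * (p + 1) ^ (n - L) = (p + 1) ^ (n - 1) * (p + 1) := by
        rw [← pow_add, ← pow_succ]
        congr 1
        omega
      have e8 : (B * (p + 1) * p ^ L) * (p + 1) ^ (n - L) = (B * (p ^ L * (p + 1) ^ (n - L))) * (p + 1) := by ring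
      rw [e7, e8] at e6
      exact Nat.le_of_mul_le_mul_right e6 (Nat.succ_pos _)
    refine (Finset.sum_le_sum (fun x _ => e2 x)).trans ?_
    rw [Finset.sum_const, Finset.card_univ, smul_eq_mul]
  have h2 := sum_zer (M := M) p
  -- a good choice
  have h3 : ∃ h : M → Fin (p + 1), (p + 1) * ((zer h).card + (bad h).card) ≤ 2 * n := by
    by_contra hcon
    push Not at hcon
    have e1 : ∑ h : M → Fin (p + 1), (2 * n) < ∑ h : M → Fin (p + 1), (p + 1) * ((zer h).card + (bad h).card) :=
      Finset.sum_lt_sum_of_nonempty Finset.univ_nonempty (fun h _ => hcon h)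
    have e0 : ∑ h : M → Fin (p + 1), (p + 1) * ((zer h).card + (bad h).card) =
        (p + 1) * (n * (p + 1) ^ (n - 1) + ∑ h : M → Fin (p + 1), (bad h).card) := by
      rw [← Finset.mul_sum, Finset.sum_add_distrib, h2, ← hn]
    rw [e0, Finset.sum_const, Finset.card_univ, Fintype.card_fun, Fintype.card_fin, smul_eq_mul, ← hn] at e1
    rcases Nat.eq_zero_or_pos n with h0 | h0
    · have hemp : IsEmpty M := Fintype.card_eq_zero_iff.1 (by rw [← hn, h0])
      rw [h0] at e1 h1
      simp only [Nat.zero_mul, Nat.mul_zero, pow_zero, zero_add] at e1 h1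
      have : (p + 1) * ∑ h : M → Fin (p + 1), (bad h).card = 0 := by
        rw [Nat.le_zero.1 h1, Nat.mul_zero]
      omega
    · have e2 : (p + 1) * (n * (p + 1) ^ (n - 1) + ∑ h : M → Fin (p + 1), (bad h).card) ≤
          (p + 1) * (n * (p + 1) ^ (n - 1) + n * (p + 1) ^ (n - 1)) :=
        Nat.mul_le_mul_left _ (Nat.add_le_add_left h1 _)
      have e3 : (p + 1) * (n * (p + 1) ^ (n - 1) + n * (p + 1) ^ (n - 1)) = (p + 1) ^ n * (2 * n) := by
        obtain ⟨m, hm⟩ : ∃ m, n = m + 1 := ⟨n - 1, by omega⟩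
        rw [hm, Nat.add_sub_cancel, pow_succ]
        ring
      omega
  obtain ⟨h, hh⟩ := h3
  refine ⟨zer h ∪ bad h, (Nat.mul_le_mul_left _ (Finset.card_union_le _ _)).trans hh, ?_⟩
  intro x hx D hD
  rw [Finset.mem_union, not_or] at hx
  have h4 : ¬ ∃ D ∈ F x, ∀ z ∈ D, h z ≠ 0 := fun hc => hx.2 (Finset.mem_filter.2 ⟨Finset.mem_univ _, hc⟩)
  push Not at h4
  obtain ⟨z, hz, hz2⟩ := h4 D hD
  exact ⟨z, hz, Finset.mem_union_left _ (Finset.mem_filter.2 ⟨Finset.mem_univ _, hz2⟩)⟩

end Pool.Agent.Helper38.EK
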