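import Pool.Agent.Helper12.EK.Defs
import Pool.Agent.Helper6.MC.Fam
import Pool.Agent.Helper6.MC.Sharp1
import Pool.Agent.Helper40.MC.Tame

/-!
# Project EK, block K12: structures with symbols of arities at most 2
-/

set_option autoImplicit false

namespace Pool.Agent.Helper12.EK

open Pool.Agent.Helper6.MC
open FirstOrder Pool.Agent.Helper20.Spectra Pool.Agent.Helper31.QD Pool.Agent.Helper38.MC
  Pool.Agent.Helper58.QD Pool.Agent.Helper40.MC

/-- K12 over K11 -/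
theorem keyR_of (hkey : ∀ a b : ℕ, ∃ K : ℕ, ∀ (M Col : Type) [Fintype M] [DecidableEq M] [DecidableEq Col]
    (c : M → M → Col), Flip c → (∀ t, 1 ≤ t → ¬ Fam c t (a * t + b)) →
    Nat.card {g : Equiv.Perm M // IsAut c g} ≤ K ^ Fintype.card M) (a b : ℕ) :
    ∃ K : ℕ, ∀ (S : Type) [Finite S] (ar : S → ℕ), (∀ s, ar s ≤ 2) → ∀ (n : ℕ)
    (R : Interp S ar (Fin n)), (∀ t, 1 ≤ t → ¬ FamR R (a * t + b) t) → Nat.card (AuG R) ≤ K ^ n := by
  obtain ⟨K, hK⟩ := hkey a b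
  refine ⟨K, fun S _ ar har n R hR => ?_⟩
  classical
  have h1 := hK (Fin n) _ (colR R) (colR_flip R) (fun t ht hF => by
    obtain ⟨u, hu, hu'⟩ := Fam.perm (colR_flip R) hF
    exact hR t ht ⟨u, hu, fun π σ h1 h2 => (au_iff R har σ).2 (hu' π σ h1 h2)⟩)
  rw [Fintype.card_fin] at h1
  refine le_trans (le_of_eq ?_) h1
  exact Nat.card_congr (Equiv.subtypeEquivRight (fun σ => au_iff R har σ))

end Pool.Agent.Helper12.EK
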